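import Mathlib

set_option autoImplicit false

/-!
# Metric spaces which are not isometric but have isometric squares (MP_1231ed_gt)

Ulam asked whether metric spaces `A` and `B` are isometric if `A × A` and `B × B`, with the Euclidean
product metric, are isometric. The answer is no, already for subspaces of the Hilbert space `ℓ²`.

Construction. Let `C = ℕ × Bool × ℕ`; the element `(n, i, k)` has the weight `4 ^ (-k)`. Let `Z` be the
set of all `S ⊆ C` of finite total weight such that for every `n` only finitely many `(n, i, k)` are in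
`S` and such that for all but finitely many `(n, k)` either both or none of `(n, false, k)`,
`(n, true, k)` are in `S`. The distance of `S` and `T` is the square root of the weight of the
symmetric difference. Let `V` be the set of the finite subsets of `ℕ`, where `k` has the weight
`4 ^ (-k)`. Then `Z × V × V` is isometric to `Z` (the part `n = 0` of a member of `Z` is a pair of members
of `V`, and the part `n ≥ 1` is a member of `Z` again). Hence `A = Z` and `B = Z × V` have isometric
squares. An isometry of `Z` and `Z × V` which maps the empty set to the empty set preserves the weights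
of intersections, so it is induced by a bijection `C → C ⊔ ℕ` which preserves the weights. By parity
it must tear, for all `k` and `N`, some pair `(n, false, k)`, `(n, true, k)` with `n ≥ N`. The union of
such pairs, one for each `k`, with `n ≥ k`, is in `Z`, but its image is not in `Z × V`. (The idea is
that of Hanf's Boolean algebra which is isomorphic to its product with the four element algebra, but
not with the two element algebra.)
-/

namespace Pool.Agent.H633.IsometricSquares

open Set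

/-! ### Weights of sets -/

/-- the total weight of a set -/
noncomputable def W {X : Type} (w : X → ℝ) (S : Set X) : ℝ := ∑' x, S.indicator w x

/-- the set has finite total weight -/
def Fin' {X : Type} (w : X → ℝ) (S : Set X) : Prop := Summable (S.indicator w)

section weights

variable {X : Type} {w : X → ℝ}

lemma Fin'.mono (hw : ∀ x, 0 ≤ w x) {S T : Set X} (h : Fin' w T) (hST : S ⊆ T) : Fin' w S := by
  refine Summable.of_nonneg_of_le (fun x => indicator_nonneg (fun _ _ => hw _) x) (fun x => ?_) h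
  exact indicator_le_indicator_of_subset hST (fun _ => hw _) x

lemma Fin'.union (hw : ∀ x, 0 ≤ w x) {S T : Set X} (h : Fin' w S) (h' : Fin' w T) :
    Fin' w (S ∪ T) := by
  refine Summable.of_nonneg_of_le (fun x => indicator_nonneg (fun _ _ => hw _) x) (fun x => ?_)
    (h.add h')
  by_cases h1 : x ∈ S <;> by_cases h2 : x ∈ T <;> simp [h1, h2, hw x]

lemma Fin'.symmDiff (hw : ∀ x, 0 ≤ w x) {S T : Set X} (h : Fin' w S) (h' : Fin' w T) :
    Fin' w (symmDiff S T) :=
  (h.union hw h').mono hw (symmDiff_le_sup)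

lemma Fin'.of_finite {S : Set X} (h : S.Finite) : Fin' w S := by
  apply summable_of_hasFiniteSupport
  exact h.subset (by
    intro x hx
    by_contra hxS
    exact hx (indicator_of_notMem hxS w))

lemma W_symmDiff (hw : ∀ x, 0 ≤ w x) {S T : Set X} (h : Fin' w S) (h' : Fin' w T) :
    W w (symmDiff S T) = W w S + W w T - 2 * W w (S ∩ T) := by
  have h3 : Fin' w (S ∩ T) := h.mono hw inter_subset_left
  unfold W
  rw [← tsum_mul_left, ← h.tsum_add h', ← (h.add h').tsum_sub (h3.mul_left 2)]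
  refine tsum_congr fun x => ?_
  by_cases h1 : x ∈ S <;> by_cases h2 : x ∈ T <;> (simp [h1, h2, Set.mem_symmDiff]; try ring)

lemma W_singleton (x : X) : W w {x} = w x := by
  unfold W
  rw [tsum_eq_single x]
  · simp
  · intro y hy
    simp [hy]

lemma W_empty : W w (∅ : Set X) = 0 := by
  unfold W
  simp

lemma W_pos (hw : ∀ x, 0 < w x) {S : Set X} (h : Fin' w S) {x : X} (hx : x ∈ S) : 0 < W w S :=
  h.tsum_pos (fun y => indicator_nonneg (fun _ _ => (hw _).le) y) x (by simp [hx, hw x])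

end weights

/-! ### Bijections which preserve the weights of intersections -/

section rigid

variable {X Y : Type} {w : X → ℝ} {w' : Y → ℝ} {𝓩 : Set (Set X)} {𝓨 : Set (Set Y)}

/-- a bijection between two families of sets that preserves the weights of the intersections is
induced by a bijection of the points -/
lemma rigid (hw : ∀ x, 0 < w x) (hw' : ∀ y, 0 < w' y) (h1 : ∀ x : X, {x} ∈ 𝓩)
    (h1' : ∀ y : Y, {y} ∈ 𝓨) (hf : ∀ S ∈ 𝓩, Fin' w S)
    (G : 𝓩 ≃ 𝓨) (hG : ∀ S T : 𝓩, W w' ((G S : Set Y) ∩ G T) = W w ((S : Set X) ∩ T)) :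
    ∃ φ : X ≃ Y, (∀ x, w' (φ x) = w x) ∧ ∀ (S : 𝓩) (x : X), φ x ∈ (G S : Set Y) ↔ x ∈ (S : Set X) := by
  classical
  have hGS : ∀ S : 𝓩, W w' (G S : Set Y) = W w (S : Set X) := by
    intro S
    have := hG S S
    rwa [inter_self, inter_self] at this
  -- images of singletons
  have key : ∀ x : X, ∀ y ∈ (G ⟨{x}, h1 x⟩ : Set Y), G ⟨{x}, h1 x⟩ = ⟨{y}, h1' y⟩ ∧ w' y = w x := by
    intro x y hy
    obtain ⟨S, hS⟩ := G.surjective ⟨{y}, h1' y⟩
    have e1 : W w ((S : Set X) ∩ {x}) = w' y := by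
      have h := hG S ⟨{x}, h1 x⟩
      rw [hS] at h
      simp only at h
      rw [← h, inter_eq_left.2 (singleton_subset_iff.2 hy), W_singleton]
    have hx : x ∈ (S : Set X) := by
      by_contra hx
      have : (S : Set X) ∩ {x} = ∅ := by
        ext z
        simp only [mem_inter_iff, mem_singleton_iff, mem_empty_iff_false, iff_false, not_and]
        rintro hz rfl
        exact hx hz
      rw [this, W_empty] at e1
      exact (hw' y).ne e1
    have e2 : (S : Set X) ∩ {x} = {x} := inter_eq_right.2 (singleton_subset_iff.2 hx)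
    rw [e2, W_singleton] at e1
    have e3 : W w (S : Set X) = w x := by
      rw [← hGS S, hS]
      simp only
      rw [W_singleton, e1]
    have e4 : (S : Set X) = {x} := by
      by_contra hne
      obtain ⟨z, hz, hzx⟩ : ∃ z ∈ (S : Set X), z ≠ x := by
        by_contra hcon
        push Not at hcon
        exact hne (eq_singleton_iff_unique_mem.2 ⟨hx, hcon⟩)
      have h5 := (hf S S.2).tsum_eq_add_tsum_ite x
      have h6 : W w (S : Set X) = w x + ∑' z, if z = x then 0 else (S : Set X).indicator w z := by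
        unfold W
        rw [h5, indicator_of_mem hx]
      have h7 : 0 < ∑' z, if z = x then 0 else (S : Set X).indicator w z := by
        have hs : Summable fun z => if z = x then 0 else (S : Set X).indicator w z := by
          refine Summable.of_nonneg_of_le (fun z => ?_) (fun z => ?_) (hf S S.2)
          · split_ifs
            · exact le_rfl
            · exact indicator_nonneg (fun _ _ => (hw _).le) z
          · split_ifs
            · exact indicator_nonneg (fun _ _ => (hw _).le) z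
            · exact le_rfl
        refine hs.tsum_pos (fun z => ?_) z ?_
        · split_ifs
          · exact le_rfl
          · exact indicator_nonneg (fun _ _ => (hw _).le) z
        · rw [if_neg hzx, indicator_of_mem hz]
          exact hw z
      linarith
    refine ⟨?_, e1.symm⟩
    have e5 : S = ⟨{x}, h1 x⟩ := Subtype.ext e4
    rw [← e5, hS]
  have hne : ∀ x : X, ∃ y, y ∈ (G ⟨{x}, h1 x⟩ : Set Y) := by
    intro x
    by_contra hcon
    push Not at hcon
    have h2 : (G ⟨{x}, h1 x⟩ : Set Y) = ∅ := eq_empty_iff_forall_notMem.2 hcon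
    have h3 := hGS ⟨{x}, h1 x⟩
    rw [h2, W_empty] at h3
    simp only at h3
    rw [W_singleton] at h3
    exact (hw x).ne h3
  choose f hfy using hne
  have hkey : ∀ x, G ⟨{x}, h1 x⟩ = ⟨{f x}, h1' (f x)⟩ ∧ w' (f x) = w x := fun x => key x _ (hfy x)
  have hinj : Function.Injective f := by
    intro x y hxy
    have h2 : G ⟨{x}, h1 x⟩ = G ⟨{y}, h1 y⟩ := by
      rw [(hkey x).1, (hkey y).1]
      exact Subtype.ext (by rw [hxy])
    have h3 := congrArg Subtype.val (G.injective h2)
    exact singleton_injective h3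
  have hsurj : Function.Surjective f := by
    intro y
    obtain ⟨S, hS⟩ := G.surjective ⟨{y}, h1' y⟩
    have h2 : W w (S : Set X) = w' y := by
      rw [← hGS S, hS]
      simp only
      rw [W_singleton]
    obtain ⟨x, hx⟩ : ∃ x, x ∈ (S : Set X) := by
      by_contra hcon
      push Not at hcon
      rw [eq_empty_iff_forall_notMem.2 hcon, W_empty] at h2
      exact (hw' y).ne h2
    refine ⟨x, ?_⟩
    have h3 := hG S ⟨{x}, h1 x⟩
    rw [hS, (hkey x).1] at h3
    simp only at h3
    rw [inter_eq_right.2 (singleton_subset_iff.2 hx), W_singleton] at h3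
    by_contra hne
    have h4 : ({y} : Set Y) ∩ {f x} = ∅ := by
      ext z
      simp only [mem_inter_iff, mem_singleton_iff, mem_empty_iff_false, iff_false, not_and]
      rintro rfl h5
      exact hne h5.symm
    rw [h4, W_empty] at h3
    exact (hw x).ne h3
  refine ⟨Equiv.ofBijective f ⟨hinj, hsurj⟩, fun x => (hkey x).2, fun S x => ?_⟩
  have h3 := hG S ⟨{x}, h1 x⟩
  rw [(hkey x).1] at h3
  simp only at h3
  change f x ∈ (G S : Set Y) ↔ _
  constructor
  · intro h
    by_contra hx
    have h4 : (S : Set X) ∩ {x} = ∅ := by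
      ext z
      simp only [mem_inter_iff, mem_singleton_iff, mem_empty_iff_false, iff_false, not_and]
      rintro hz rfl
      exact hx hz
    rw [h4, W_empty, inter_eq_right.2 (singleton_subset_iff.2 h), W_singleton] at h3
    exact (hw' _).ne' h3
  · intro h
    by_contra hx
    have h4 : (G S : Set Y) ∩ {f x} = ∅ := by
      ext z
      simp only [mem_inter_iff, mem_singleton_iff, mem_empty_iff_false, iff_false, not_and]
      rintro hz rfl
      exact hx hz
    rw [h4, W_empty, inter_eq_right.2 (singleton_subset_iff.2 h), W_singleton] at h3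
    exact (hw _).ne h3

end rigid

/-! ### The two families of sets -/

/-- the points `(n, i, k)` -/
abbrev C : Type := ℕ × Bool × ℕ

/-- the weight `4 ^ (-k)` of `(n, i, k)` -/
noncomputable def wC (c : C) : ℝ := (1 / 4) ^ c.2.2

/-- the weight `4 ^ (-k)` of `k` -/
noncomputable def wV (k : ℕ) : ℝ := (1 / 4) ^ k

/-- the weights on the disjoint union -/
noncomputable def wY (c : C ⊕ ℕ) : ℝ := Sum.elim wC wV c

/-- the family `Z` -/
def ZZ : Set (Set C) :=
  {S | Fin' wC S ∧ (∀ n, {q : Bool × ℕ | (n, q) ∈ S}.Finite) ∧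
    {m : ℕ × ℕ | ¬ ((m.1, false, m.2) ∈ S ↔ (m.1, true, m.2) ∈ S)}.Finite}

/-- the family `Z × V` on the disjoint union -/
def YY : Set (Set (C ⊕ ℕ)) := {S | Sum.inl ⁻¹' S ∈ ZZ ∧ (Sum.inr ⁻¹' S).Finite}

lemma wC_pos (c : C) : 0 < wC c := by unfold wC; positivity

lemma wV_pos (k : ℕ) : 0 < wV k := by unfold wV; positivity

lemma wY_pos (c : C ⊕ ℕ) : 0 < wY c := by
  rcases c with c | k
  · exact wC_pos c
  · exact wV_pos k

lemma singleton_mem_ZZ (c : C) : {c} ∈ ZZ := by
  refine ⟨Fin'.of_finite (finite_singleton c), fun n => ?_, ?_⟩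
  · refine (finite_singleton c.2).subset ?_
    rintro q hq
    rw [mem_ofPred_eq, mem_singleton_iff] at hq
    rw [mem_singleton_iff, ← hq]
  · refine (finite_singleton (c.1, c.2.2)).subset ?_
    rintro ⟨n, k⟩ h
    rw [mem_singleton_iff]
    by_contra hne
    apply h
    have h1 : ∀ i, (n, i, k) ∉ ({c} : Set C) := by
      intro i hi
      apply hne
      rw [mem_singleton_iff] at hi
      rw [← hi]
    exact ⟨fun h2 => absurd h2 (h1 _), fun h2 => absurd h2 (h1 _)⟩

lemma empty_mem_ZZ : (∅ : Set C) ∈ ZZ := by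
  refine ⟨Fin'.of_finite finite_empty, fun n => ?_, ?_⟩
  · simp
  · simp

/-- the exponent of the weight -/
def sc (y : C ⊕ ℕ) : ℕ := Sum.elim (fun c : C => c.2.2) id y

lemma wY_eq (y : C ⊕ ℕ) : wY y = (1 / 4) ^ sc y := by
  rcases y with c | k <;> rfl

lemma fin_YY {S : Set (C ⊕ ℕ)} (h : S ∈ YY) : Fin' wY S := by
  refine Summable.sum _ ?_ ?_
  · refine h.1.1.congr fun c => ?_
    by_cases hc : Sum.inl c ∈ S
    · rw [Function.comp_apply, indicator_of_mem hc, indicator_of_mem (show c ∈ Sum.inl ⁻¹' S from hc)]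
      rfl
    · rw [Function.comp_apply, indicator_of_notMem hc,
        indicator_of_notMem (show c ∉ Sum.inl ⁻¹' S from hc)]
  · apply summable_of_hasFiniteSupport
    refine h.2.subset fun k hk => ?_
    by_contra hkS
    exact hk (indicator_of_notMem (show Sum.inr k ∉ S from hkS) _)

lemma singleton_mem_YY (y : C ⊕ ℕ) : {y} ∈ YY := by
  rcases y with c | k
  · have h1 : (Sum.inl ⁻¹' {(Sum.inl c : C ⊕ ℕ)} : Set C) = {c} := by
      ext; simp
    have h2 : (Sum.inr ⁻¹' {(Sum.inl c : C ⊕ ℕ)} : Set ℕ) = ∅ := by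
      ext; simp
    refine ⟨?_, ?_⟩
    · rw [h1]; exact singleton_mem_ZZ c
    · rw [h2]; exact finite_empty
  · have h1 : (Sum.inl ⁻¹' {(Sum.inr k : C ⊕ ℕ)} : Set C) = ∅ := by
      ext; simp
    have h2 : (Sum.inr ⁻¹' {(Sum.inr k : C ⊕ ℕ)} : Set ℕ) = {k} := by
      ext; simp
    refine ⟨?_, ?_⟩
    · rw [h1]; exact empty_mem_ZZ
    · rw [h2]; exact finite_singleton k

lemma symmDiff_mem_ZZ {S T : Set C} (hS : S ∈ ZZ) (hT : T ∈ ZZ) : symmDiff S T ∈ ZZ := by
  refine ⟨hS.1.symmDiff (fun c => (wC_pos c).le) hT.1, fun n => ?_, ?_⟩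
  · refine ((hS.2.1 n).union (hT.2.1 n)).subset ?_
    intro q hq
    have h : (n, q) ∈ symmDiff S T := hq
    rw [Set.mem_symmDiff] at h
    rcases h with h | h
    · exact Or.inl h.1
    · exact Or.inr h.1
  · refine (hS.2.2.union hT.2.2).subset ?_
    intro m hm
    by_contra hcon
    rw [mem_union, not_or] at hcon
    have h1 : (m.1, false, m.2) ∈ S ↔ (m.1, true, m.2) ∈ S := by
      by_contra h; exact hcon.1 h
    have h2 : (m.1, false, m.2) ∈ T ↔ (m.1, true, m.2) ∈ T := by
      by_contra h; exact hcon.2 h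
    apply hm
    rw [Set.mem_symmDiff, Set.mem_symmDiff, h1, h2]

lemma symmDiff_mem_YY {S T : Set (C ⊕ ℕ)} (hS : S ∈ YY) (hT : T ∈ YY) : symmDiff S T ∈ YY := by
  refine ⟨symmDiff_mem_ZZ hS.1 hT.1, ?_⟩
  refine (hS.2.union hT.2).subset ?_
  intro k hk
  have h : Sum.inr k ∈ symmDiff S T := hk
  rw [Set.mem_symmDiff] at h
  rcases h with h | h
  · exact Or.inl h.1
  · exact Or.inr h.1

/-- the partner of a point: `(n, i, k)` and `(n, !i, k)` are partners -/
def pr (y : C ⊕ ℕ) : C ⊕ ℕ := Sum.elim (fun c : C => Sum.inl (c.1, !c.2.1, c.2.2)) Sum.inr y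

lemma pr_pr (y : C ⊕ ℕ) : pr (pr y) = y := by
  rcases y with c | k
  · simp [pr]
  · rfl

lemma sc_pr (y : C ⊕ ℕ) : sc (pr y) = sc y := by
  rcases y with c | k <;> rfl

/-- parity: a bijection `C → C ⊔ ℕ` which preserves the weights tears pairs -/
lemma tear (φ : C ≃ C ⊕ ℕ) (hφ : ∀ c, sc (φ c) = c.2.2) (k N : ℕ) :
    ∃ n, N ≤ n ∧ pr (φ (n, false, k)) ≠ φ (n, true, k) := by
  classical
  by_contra hcon
  push Not at hcon
  have hpr : ∀ c : C, N ≤ c.1 → c.2.2 = k → pr (φ c) = φ (c.1, !c.2.1, c.2.2) := by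
    rintro ⟨n, i, k'⟩ hn hk
    simp only at hn hk
    subst hk
    cases i
    · exact hcon n hn
    · have h := hcon n hn
      simp only [Bool.not_true]
      rw [← h, pr_pr]
  set X : Finset (C ⊕ ℕ) :=
    (Finset.range N ×ˢ (Finset.univ : Finset Bool)).image fun q => φ (q.1, q.2, k) with hX
  have hmem : ∀ y, y ∈ X ↔ sc y = k ∧ (φ.symm y).1 < N := by
    intro y
    rw [hX, Finset.mem_image]
    constructor
    · rintro ⟨q, hq, rfl⟩
      rw [Finset.mem_product, Finset.mem_range] at hq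
      exact ⟨hφ _, by rw [Equiv.symm_apply_apply]; exact hq.1⟩
    · rintro ⟨h1, h2⟩
      have h3 : (φ.symm y).2.2 = k := by
        rw [← hφ, Equiv.apply_symm_apply, h1]
      refine ⟨((φ.symm y).1, (φ.symm y).2.1), ?_, ?_⟩
      · rw [Finset.mem_product, Finset.mem_range]
        exact ⟨h2, Finset.mem_univ _⟩
      · simp only
        rw [← h3]
        exact φ.apply_symm_apply y
  have hcard : X.card = 2 * N := by
    rw [hX, Finset.card_image_of_injective, Finset.card_product, Finset.card_range,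
      Finset.card_univ, Fintype.card_bool, mul_comm]
    rintro ⟨n, i⟩ ⟨n', i'⟩ h
    have h1 := φ.injective h
    simp only [Prod.mk.injEq] at h1
    exact Prod.ext h1.1 h1.2.1
  have hcl : ∀ y ∈ X, pr y ∈ X := by
    intro y hy
    rw [hmem] at hy ⊢
    refine ⟨by rw [sc_pr, hy.1], ?_⟩
    by_contra h
    rw [not_lt] at h
    have h3 : (φ.symm (pr y)).2.2 = k := by
      rw [← hφ, Equiv.apply_symm_apply, sc_pr, hy.1]
    have h4 := hpr _ h h3
    rw [Equiv.apply_symm_apply, pr_pr] at h4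
    have h5 := hy.2
    rw [h4, Equiv.symm_apply_apply] at h5
    simp only at h5
    omega
  have hk : (Sum.inr k : C ⊕ ℕ) ∈ X := by
    rw [hmem]
    refine ⟨rfl, ?_⟩
    by_contra h
    rw [not_lt] at h
    have h3 : (φ.symm (Sum.inr k)).2.2 = k := by
      rw [← hφ, Equiv.apply_symm_apply]
      rfl
    have h4 := hpr _ h h3
    rw [Equiv.apply_symm_apply] at h4
    have h5 : (Sum.inr k : C ⊕ ℕ) = φ ((φ.symm (Sum.inr k)).1, !(φ.symm (Sum.inr k)).2.1,
      (φ.symm (Sum.inr k)).2.2) := h4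
    have h6 := congrArg φ.symm h5
    rw [Equiv.symm_apply_apply] at h6
    have h7 := congrArg (fun c : C => c.2.1) h6
    simp only at h7
    cases h8 : (φ.symm (Sum.inr k)).2.1
    · rw [h8] at h7
      exact absurd h7 (by decide)
    · rw [h8] at h7
      exact absurd h7 (by decide)
  have hsum : ∑ _y ∈ X.erase (Sum.inr k), (1 : ZMod 2) = 0 := by
    refine Finset.sum_involution (fun y _ => pr y) (fun y _ => by decide) ?_ ?_ ?_
    · intro y hy _ h
      rcases y with c | k'
      · have h1 : (Sum.inl (c.1, !c.2.1, c.2.2) : C ⊕ ℕ) = Sum.inl c := h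
        have h2 := congrArg (fun c : C => c.2.1) (Sum.inl.inj h1)
        simp only at h2
        cases h8 : c.2.1
        · rw [h8] at h2
          exact absurd h2 (by decide)
        · rw [h8] at h2
          exact absurd h2 (by decide)
      · rw [Finset.mem_erase, hmem] at hy
        apply hy.1
        have : k' = k := hy.2.1
        rw [this]
    · intro y hy
      rw [Finset.mem_erase] at hy ⊢
      refine ⟨fun h => hy.1 ?_, hcl y hy.2⟩
      have := congrArg pr h
      rw [pr_pr] at this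
      exact this
    · intro y _
      exact pr_pr y
  rw [Finset.sum_const, Finset.card_erase_of_mem hk, hcard, nsmul_eq_mul, mul_one] at hsum
  have hN : 0 < N := by
    have h1 := Finset.card_pos.2 ⟨_, hk⟩
    omega
  rw [ZMod.natCast_eq_zero_iff] at hsum
  omega

/-- there is no bijection of the points that maps the sets of `Z` to sets of `Z × V` -/
lemma no_bij (φ : C ≃ C ⊕ ℕ) (hφ : ∀ c, sc (φ c) = c.2.2) (H : ∀ S ∈ ZZ, φ '' S ∈ YY) : False := by
  choose ν hν hne using fun k => tear φ hφ k k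
  set S : Set C := {c | c.1 = ν c.2.2} with hS
  have hb : ∀ b : Bool, Fin' wC {c : C | c.1 = ν c.2.2 ∧ c.2.1 = b} := by
    intro b
    have hinj : Function.Injective (fun k : ℕ => ((ν k, b, k) : C)) := by
      intro k k' h
      simp only [Prod.mk.injEq] at h
      exact h.2.2
    refine (hinj.summable_iff ?_).1 ?_
    · rintro ⟨n, i, k⟩ h
      apply indicator_of_notMem
      rintro ⟨h1, h2⟩
      simp only at h1 h2
      exact h ⟨k, by rw [h1, h2]⟩
    · refine (summable_geometric_of_lt_one (r := (1 / 4 : ℝ)) (by norm_num) (by norm_num)).congr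
        fun k => ?_
      rw [Function.comp_apply, indicator_of_mem
        (show (ν k, b, k) ∈ {c : C | c.1 = ν c.2.2 ∧ c.2.1 = b} from ⟨rfl, rfl⟩)]
      rfl
  have hSZ : S ∈ ZZ := by
    refine ⟨?_, fun n => ?_, ?_⟩
    · refine ((hb false).union (fun c => (wC_pos c).le) (hb true)).mono
        (fun c => (wC_pos c).le) ?_
      intro c hc
      cases h : c.2.1
      · exact Or.inl ⟨hc, h⟩
      · exact Or.inr ⟨hc, h⟩
    · refine ((finite_univ (α := Bool)).prod (finite_Iic n)).subset ?_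
      rintro ⟨i, k⟩ h
      have h1 : n = ν k := h
      refine ⟨mem_univ _, ?_⟩
      rw [mem_Iic, h1]
      exact hν k
    · refine finite_empty.subset ?_
      rintro ⟨n, k⟩ h
      exact h Iff.rfl
  obtain ⟨⟨-, -, hA⟩, hB⟩ := H S hSZ
  refine Set.infinite_univ (α := ℕ) ((hB.union (hA.image Prod.snd)).subset ?_)
  intro k _
  have hu : φ (ν k, false, k) ∈ φ '' S := mem_image_of_mem φ (show (ν k, false, k) ∈ S from rfl)
  have hp : pr (φ (ν k, false, k)) ∈ φ '' S → pr (φ (ν k, false, k)) = φ (ν k, false, k) := by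
    rintro ⟨⟨n, i, k'⟩, hc, h⟩
    have h1 : k' = k := by
      have h2 := congrArg sc h
      rw [hφ, sc_pr, hφ] at h2
      exact h2
    subst h1
    have h3 : n = ν k' := hc
    subst h3
    cases i
    · exact h.symm
    · exact absurd h.symm (hne k')
  have hsc := hφ (ν k, false, k)
  cases hcase : φ (ν k, false, k) with
  | inr k' =>
    left
    rw [hcase] at hsc hu
    have h1 : k' = k := hsc
    subst h1
    exact hu
  | inl c =>
    right
    rw [hcase] at hsc hu hp
    obtain ⟨m, i, k'⟩ := c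
    have h1 : k' = k := hsc
    subst h1
    have h2 : (Sum.inl (m, !i, k') : C ⊕ ℕ) ∉ φ '' S := by
      intro h
      have h3 := hp h
      have h4 : (Sum.inl (m, !i, k') : C ⊕ ℕ) = Sum.inl (m, i, k') := h3
      have h5 := congrArg (fun c : C => c.2.1) (Sum.inl.inj h4)
      simp at h5
    refine ⟨(m, k'), ?_, rfl⟩
    intro hiff
    cases i
    · exact h2 (hiff.1 hu)
    · exact h2 (hiff.2 hu)

/-! ### The spaces are not isometric -/

/-- the translation by `D` -/
def tr (D : YY) : YY ≃ YY where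
  toFun S := ⟨symmDiff (S : Set (C ⊕ ℕ)) D, symmDiff_mem_YY S.2 D.2⟩
  invFun S := ⟨symmDiff (S : Set (C ⊕ ℕ)) D, symmDiff_mem_YY S.2 D.2⟩
  left_inv S := Subtype.ext (symmDiff_symmDiff_cancel_right _ _)
  right_inv S := Subtype.ext (symmDiff_symmDiff_cancel_right _ _)

lemma no_isometry (F : ZZ ≃ YY)
    (hF : ∀ S T : ZZ, W wY (symmDiff (F S : Set (C ⊕ ℕ)) (F T)) = W wC (symmDiff (S : Set C) T)) :
    False := by
  have hwC : ∀ c, 0 ≤ wC c := fun c => (wC_pos c).le
  have hwY : ∀ c, 0 ≤ wY c := fun c => (wY_pos c).le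
  set E : ZZ := ⟨∅, empty_mem_ZZ⟩ with hE
  set G : ZZ ≃ YY := F.trans (tr (F E)) with hG
  have hGc : ∀ S : ZZ, (G S : Set (C ⊕ ℕ)) = symmDiff (F S : Set (C ⊕ ℕ)) (F E) := fun S => rfl
  have hGG : ∀ S T : ZZ, W wY (symmDiff (G S : Set (C ⊕ ℕ)) (G T)) =
      W wC (symmDiff (S : Set C) T) := by
    intro S T
    rw [← hF S T, hGc, hGc]
    congr 1
    rw [symmDiff_comm (F T : Set (C ⊕ ℕ)) (F E), symmDiff_assoc,
      symmDiff_symmDiff_cancel_left]
  have hGE : (G E : Set (C ⊕ ℕ)) = ∅ := by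
    rw [hGc, symmDiff_self]
    rfl
  have hG1 : ∀ S : ZZ, W wY (G S : Set (C ⊕ ℕ)) = W wC (S : Set C) := by
    intro S
    have h := hGG S E
    rw [hGE] at h
    have h1 : symmDiff (G S : Set (C ⊕ ℕ)) ∅ = G S := symmDiff_bot _
    have h2 : symmDiff (S : Set C) (E : Set C) = S := symmDiff_bot _
    rwa [h1, h2] at h
  have hG2 : ∀ S T : ZZ, W wY ((G S : Set (C ⊕ ℕ)) ∩ G T) = W wC ((S : Set C) ∩ T) := by
    intro S T
    have h1 := W_symmDiff hwY (fin_YY (G S).2) (fin_YY (G T).2)
    have h2 := W_symmDiff hwC S.2.1 T.2.1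
    rw [hGG, h2, hG1, hG1] at h1
    linarith
  obtain ⟨φ, h1, h2⟩ := rigid wC_pos wY_pos singleton_mem_ZZ singleton_mem_YY
    (fun S hS => hS.1) G hG2
  refine no_bij φ ?_ ?_
  · intro c
    have h3 := h1 c
    rw [wY_eq] at h3
    unfold wC at h3
    exact pow_right_injective₀ (by norm_num) (by norm_num) h3
  · intro S hS
    have h3 : φ '' S = (G ⟨S, hS⟩ : Set (C ⊕ ℕ)) := by
      ext y
      constructor
      · rintro ⟨x, hx, rfl⟩
        exact (h2 ⟨S, hS⟩ x).2 hx
      · intro hy
        refine ⟨φ.symm y, ?_, φ.apply_symm_apply y⟩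
        rw [← φ.apply_symm_apply y] at hy
        exact (h2 ⟨S, hS⟩ _).1 hy
    rw [h3]
    exact (G ⟨S, hS⟩).2

/-! ### The squares are isometric -/

/-- a set of the disjoint union with given parts -/
def J (A : Set C) (D : Set ℕ) : Set (C ⊕ ℕ) := {y | Sum.elim (fun c => c ∈ A) (fun k => k ∈ D) y}

/-- the part of the block `0` -/
def p0 (b : Bool) (T : Set C) : Set ℕ := {k | (0, b, k) ∈ T}

/-- the part of the blocks `n ≥ 1`, shifted -/
def p1 (T : Set C) : Set C := {c | (c.1 + 1, c.2) ∈ T}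

/-- the set with given parts -/
def K (D D' : Set ℕ) (A : Set C) : Set C :=
  {c | (c.1 = 0 ∧ c.2.1 = false ∧ c.2.2 ∈ D) ∨ (c.1 = 0 ∧ c.2.1 = true ∧ c.2.2 ∈ D') ∨
    (c.1 ≠ 0 ∧ (c.1 - 1, c.2) ∈ A)}

lemma p0_finite {b : Bool} {T : Set C} (hT : T ∈ ZZ) : (p0 b T).Finite := by
  refine ((hT.2.1 0).image Prod.snd).subset ?_
  intro k hk
  exact ⟨(b, k), hk, rfl⟩

lemma p1_mem {T : Set C} (hT : T ∈ ZZ) : p1 T ∈ ZZ := by
  refine ⟨?_, fun n => hT.2.1 (n + 1), ?_⟩
  · have hinj : Function.Injective (fun c : C => ((c.1 + 1, c.2) : C)) := by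
      intro c c' h
      simp only [Prod.mk.injEq, Nat.add_right_cancel_iff] at h
      exact Prod.ext h.1 h.2
    exact hT.1.comp_injective hinj
  · have hinj : Function.Injective (fun m : ℕ × ℕ => ((m.1 + 1, m.2) : ℕ × ℕ)) := by
      intro c c' h
      simp only [Prod.mk.injEq, Nat.add_right_cancel_iff] at h
      exact Prod.ext h.1 h.2
    exact hT.2.2.preimage hinj.injOn

lemma p0_K_false (D D' : Set ℕ) (A : Set C) : p0 false (K D D' A) = D := by
  ext k
  simp [p0, K]

lemma p0_K_true (D D' : Set ℕ) (A : Set C) : p0 true (K D D' A) = D' := by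
  ext k
  simp [p0, K]

lemma p1_K (D D' : Set ℕ) (A : Set C) : p1 (K D D' A) = A := by
  ext c
  simp [p1, K]

lemma K_p (T : Set C) : K (p0 false T) (p0 true T) (p1 T) = T := by
  ext ⟨n, b, k⟩
  rcases n with - | n
  · cases b <;> simp [p0, K]
  · simp [p1, K]

/-- the points as points of the block `0` and of the other blocks -/
def spl : (ℕ ⊕ ℕ) ⊕ C ≃ C where
  toFun z := match z with
    | Sum.inl (Sum.inl k) => (0, false, k)
    | Sum.inl (Sum.inr k) => (0, true, k)
    | Sum.inr c => (c.1 + 1, c.2)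
  invFun c := match c with
    | (0, false, k) => Sum.inl (Sum.inl k)
    | (0, true, k) => Sum.inl (Sum.inr k)
    | (n + 1, q) => Sum.inr (n, q)
  left_inv z := by
    rcases z with (k | k) | c <;> rfl
  right_inv c := by
    rcases c with ⟨n | n, b, k⟩
    · cases b <;> rfl
    · rfl

lemma W_spl {T : Set C} (h : Fin' wC T) :
    W wC T = W wV (p0 false T) + W wV (p0 true T) + W wC (p1 T) := by
  have h0 : Summable fun z => T.indicator wC (spl z) := (spl.summable_iff (f := T.indicator wC)).2 h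
  have h1 : Summable ((fun z => T.indicator wC (spl z)) ∘ Sum.inl) :=
    h0.comp_injective Sum.inl_injective
  have h2 : Summable ((fun z => T.indicator wC (spl z)) ∘ Sum.inr) :=
    h0.comp_injective Sum.inr_injective
  have h3 : Summable ((fun z : ℕ ⊕ ℕ => T.indicator wC (spl (Sum.inl z))) ∘ Sum.inl) :=
    h1.comp_injective Sum.inl_injective
  have h4 : Summable ((fun z : ℕ ⊕ ℕ => T.indicator wC (spl (Sum.inl z))) ∘ Sum.inr) :=
    h1.comp_injective Sum.inr_injective
  calc W wC T = ∑' z, T.indicator wC (spl z) := (spl.tsum_eq (T.indicator wC)).symm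
    _ = (∑' z : ℕ ⊕ ℕ, T.indicator wC (spl (Sum.inl z))) + ∑' c : C, T.indicator wC (spl (Sum.inr c)) :=
        h1.tsum_sum h2
    _ = ((∑' k : ℕ, T.indicator wC (spl (Sum.inl (Sum.inl k)))) +
          ∑' k : ℕ, T.indicator wC (spl (Sum.inl (Sum.inr k)))) +
          ∑' c : C, T.indicator wC (spl (Sum.inr c)) := by
        rw [h3.tsum_sum h4]
    _ = _ := rfl

lemma K_mem {D D' : Set ℕ} {A : Set C} (hD : D.Finite) (hD' : D'.Finite) (hA : A ∈ ZZ) :
    K D D' A ∈ ZZ := by
  have hsub : K D D' A ⊆ (((fun k => (0, false, k)) '' D) ∪ ((fun k => (0, true, k)) '' D')) ∪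
      ((fun c : C => (c.1 + 1, c.2)) '' A) := by
    rintro ⟨n, b, k⟩ (⟨h1, h2, h3⟩ | ⟨h1, h2, h3⟩ | ⟨h1, h2⟩)
    · simp only at h1 h2 h3
      subst h1 h2
      exact Or.inl (Or.inl ⟨k, h3, rfl⟩)
    · simp only at h1 h2 h3
      subst h1 h2
      exact Or.inl (Or.inr ⟨k, h3, rfl⟩)
    · simp only at h1 h2
      refine Or.inr ⟨_, h2, ?_⟩
      simp only [Prod.mk.injEq, and_true]
      omega
  have hinj : Function.Injective (fun c : C => ((c.1 + 1, c.2) : C)) := by
    intro c c' h
    simp only [Prod.mk.injEq, Nat.add_right_cancel_iff] at h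
    exact Prod.ext h.1 h.2
  refine ⟨?_, fun n => ?_, ?_⟩
  · refine Fin'.mono (fun c => (wC_pos c).le) ?_ hsub
    refine Fin'.union (fun c => (wC_pos c).le) (Fin'.of_finite ((hD.image _).union (hD'.image _))) ?_
    refine (hinj.summable_iff ?_).1 ?_
    · intro c hc
      apply indicator_of_notMem
      rintro ⟨c', -, rfl⟩
      exact hc ⟨c', rfl⟩
    · refine hA.1.congr fun c => ?_
      by_cases h : c ∈ A
      · rw [Function.comp_apply, indicator_of_mem (mem_image_of_mem _ h), indicator_of_mem h]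
        rfl
      · rw [Function.comp_apply, indicator_of_notMem h, indicator_of_notMem]
        rintro ⟨c', h1, h2⟩
        exact h (hinj h2 ▸ h1)
  · rcases n with - | n
    · refine ((hD.image fun k => (false, k)).union (hD'.image fun k => (true, k))).subset ?_
      rintro ⟨b, k⟩ h
      rcases h with ⟨-, h2, h3⟩ | ⟨-, h2, h3⟩ | ⟨h1, -⟩
      · simp only at h2 h3
        subst h2
        exact Or.inl ⟨k, h3, rfl⟩
      · simp only at h2 h3
        subst h2
        exact Or.inr ⟨k, h3, rfl⟩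
      · exact absurd rfl h1
    · refine (hA.2.1 n).subset ?_
      rintro ⟨b, k⟩ h
      rcases h with ⟨h1, -⟩ | ⟨h1, -⟩ | ⟨-, h1⟩
      · exact absurd h1 (Nat.succ_ne_zero n)
      · exact absurd h1 (Nat.succ_ne_zero n)
      · exact h1
  · refine (((hD.image fun k => (0, k)).union (hD'.image fun k => (0, k))).union
      (hA.2.2.image fun m => (m.1 + 1, m.2))).subset ?_
    rintro ⟨n, k⟩ h
    by_contra hcon
    rw [mem_union, mem_union, not_or, not_or] at hcon
    obtain ⟨⟨h1, h2⟩, h3⟩ := hcon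
    apply h
    rcases n with - | n
    · have h4 : k ∉ D := fun h5 => h1 ⟨k, h5, rfl⟩
      have h5 : k ∉ D' := fun h5 => h2 ⟨k, h5, rfl⟩
      simp [K, h4, h5]
    · have h4 : ¬ ¬ ((n, false, k) ∈ A ↔ (n, true, k) ∈ A) := fun h5 => h3 ⟨(n, k), h5, rfl⟩
      rw [not_not] at h4
      simp [K, h4]

/-- the squares of the two families -/
def sq : ZZ × ZZ ≃ YY × YY where
  toFun x := (⟨J x.1 (p0 false x.2), ⟨x.1.2, p0_finite x.2.2⟩⟩,
    ⟨J (p1 x.2) (p0 true x.2), ⟨p1_mem x.2.2, p0_finite x.2.2⟩⟩)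
  invFun y := (⟨Sum.inl ⁻¹' (y.1 : Set (C ⊕ ℕ)), y.1.2.1⟩,
    ⟨K (Sum.inr ⁻¹' (y.1 : Set (C ⊕ ℕ))) (Sum.inr ⁻¹' (y.2 : Set (C ⊕ ℕ)))
      (Sum.inl ⁻¹' (y.2 : Set (C ⊕ ℕ))), K_mem y.1.2.2 y.2.2.2 y.2.2.1⟩)
  left_inv x := by
    refine Prod.ext (Subtype.ext rfl) (Subtype.ext ?_)
    exact K_p _
  right_inv y := by
    refine Prod.ext (Subtype.ext ?_) (Subtype.ext ?_)
    · ext z
      rcases z with c | k
      · exact Iff.rfl
      · change k ∈ p0 false (K _ _ _) ↔ _
        rw [p0_K_false]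
        exact Iff.rfl
    · ext z
      rcases z with c | k
      · change c ∈ p1 (K _ _ _) ↔ _
        rw [p1_K]
        exact Iff.rfl
      · change k ∈ p0 true (K _ _ _) ↔ _
        rw [p0_K_true]
        exact Iff.rfl

lemma W_YY {S : Set (C ⊕ ℕ)} (h : Fin' wY S) :
    W wY S = W wC (Sum.inl ⁻¹' S) + W wV (Sum.inr ⁻¹' S) := by
  have h1 : Summable (S.indicator wY ∘ Sum.inl) := h.comp_injective Sum.inl_injective
  have h2 : Summable (S.indicator wY ∘ Sum.inr) := h.comp_injective Sum.inr_injective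
  exact h1.tsum_sum h2

lemma sq_W (x y : ZZ × ZZ) :
    W wY (symmDiff ((sq x).1 : Set (C ⊕ ℕ)) (sq y).1) +
      W wY (symmDiff ((sq x).2 : Set (C ⊕ ℕ)) (sq y).2) =
    W wC (symmDiff (x.1 : Set C) y.1) + W wC (symmDiff (x.2 : Set C) y.2) := by
  rw [W_YY (fin_YY (symmDiff_mem_YY (sq x).1.2 (sq y).1.2)),
    W_YY (fin_YY (symmDiff_mem_YY (sq x).2.2 (sq y).2.2)),
    W_spl (symmDiff_mem_ZZ x.2.2 y.2.2).1]
  have h1 : Sum.inl ⁻¹' (symmDiff ((sq x).1 : Set (C ⊕ ℕ)) (sq y).1) =
    symmDiff (x.1 : Set C) y.1 := rfl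
  have h2 : Sum.inr ⁻¹' (symmDiff ((sq x).1 : Set (C ⊕ ℕ)) (sq y).1) =
    p0 false (symmDiff (x.2 : Set C) y.2) := rfl
  have h3 : Sum.inl ⁻¹' (symmDiff ((sq x).2 : Set (C ⊕ ℕ)) (sq y).2) =
    p1 (symmDiff (x.2 : Set C) y.2) := rfl
  have h4 : Sum.inr ⁻¹' (symmDiff ((sq x).2 : Set (C ⊕ ℕ)) (sq y).2) =
    p0 true (symmDiff (x.2 : Set C) y.2) := rfl
  rw [h1, h2, h3, h4]
  ring

/-! ### Realisation in the Hilbert space -/

/-- the Hilbert space `ℓ²` -/
abbrev H : Type := lp (fun _ : ℕ => ℝ) 2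

section hilbert

variable {X : Type} {u : X → ℝ} (σ : X ≃ ℕ)

open Classical in
/-- the coordinates of a set -/
noncomputable def co (u : X → ℝ) (S : Set X) (m : ℕ) : ℝ := if σ.symm m ∈ S then u (σ.symm m) else 0

lemma co_sq (S : Set X) (m : ℕ) : ‖co σ u S m‖ ^ (2 : ENNReal).toReal =
    S.indicator (fun x => u x ^ 2) (σ.symm m) := by
  rw [ENNReal.toReal_ofNat, Real.rpow_two, Real.norm_eq_abs, sq_abs]
  unfold co
  by_cases h : σ.symm m ∈ S
  · rw [if_pos h, indicator_of_mem h]
  · rw [if_neg h, indicator_of_notMem h]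
    simp

lemma co_mem {S : Set X} (h : Fin' (fun x => u x ^ 2) S) : Memℓp (co σ u S) 2 := by
  apply memℓp_gen
  refine ((σ.symm.summable_iff (f := S.indicator fun x => u x ^ 2)).2 h).congr fun m => ?_
  rw [co_sq]
  rfl

/-- a set of finite weight as a vector -/
noncomputable def vec {S : Set X} (h : Fin' (fun x => u x ^ 2) S) : H := ⟨co σ u S, co_mem σ h⟩

lemma dist_vec {S T : Set X} (hS : Fin' (fun x => u x ^ 2) S) (hT : Fin' (fun x => u x ^ 2) T) :
    dist (vec σ hS) (vec σ hT) ^ 2 = W (fun x => u x ^ 2) (symmDiff S T) := by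
  rw [dist_eq_norm]
  have h := lp.norm_rpow_eq_tsum (p := 2) (by norm_num) (vec σ hS - vec σ hT)
  rw [ENNReal.toReal_ofNat, Real.rpow_two] at h
  rw [h]
  unfold W
  rw [← σ.symm.tsum_eq]
  refine tsum_congr fun m => ?_
  have h2 : (vec σ hS - vec σ hT : H) m = co σ u S m - co σ u T m := rfl
  rw [h2, Real.rpow_two, Real.norm_eq_abs, sq_abs]
  unfold co
  by_cases h3 : σ.symm m ∈ S <;> by_cases h4 : σ.symm m ∈ T <;>
    simp [h3, h4, Set.mem_symmDiff, Set.indicator]

end hilbert

/-- a family of sets of finite weight is a subspace of the Hilbert space -/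
lemma realise {X : Type} (σ : X ≃ ℕ) (u : X → ℝ) (hu : ∀ x, 0 < u x) (𝓕 : Set (Set X))
    (hf : ∀ S ∈ 𝓕, Fin' (fun x => u x ^ 2) S) :
    ∃ (A : Set H) (e : 𝓕 ≃ A), ∀ S T : 𝓕,
      dist (e S) (e T) ^ 2 = W (fun x => u x ^ 2) (symmDiff (S : Set X) T) := by
  have hd : ∀ S T : 𝓕, dist (vec σ (hf S S.2)) (vec σ (hf T T.2)) ^ 2 =
      W (fun x => u x ^ 2) (symmDiff (S : Set X) T) := fun S T => dist_vec σ _ _
  have hinj : Function.Injective (fun S : 𝓕 => vec σ (hf S S.2)) := by
    intro S T h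
    simp only at h
    have h1 := hd S T
    rw [h, dist_self] at h1
    by_contra hne
    have h2 : symmDiff (S : Set X) T ≠ ∅ := by
      intro h3
      exact hne (Subtype.ext (symmDiff_eq_bot.1 h3))
    obtain ⟨x, hx⟩ := nonempty_iff_ne_empty.2 h2
    have h3 := W_pos (w := fun x => u x ^ 2) (fun x => pow_pos (hu x) 2)
      ((hf S S.2).symmDiff (fun x => (pow_pos (hu x) 2).le) (hf T T.2)) hx
    rw [← h1] at h3
    norm_num at h3
  exact ⟨range fun S : 𝓕 => vec σ (hf S S.2), Equiv.ofInjective _ hinj, fun S T => hd S T⟩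

/-- **Main result.** There are two subspaces `A`, `B` of the Hilbert space `ℓ²` such that `A × A` and
`B × B` with the Euclidean product metrics are isometric, and `A` and `B` are not isometric. -/
theorem result : ∃ A B : Set H,
    (∃ e : A × A ≃ B × B, ∀ x y : A × A,
      Real.sqrt (dist (e x).1 (e y).1 ^ 2 + dist (e x).2 (e y).2 ^ 2) =
        Real.sqrt (dist x.1 y.1 ^ 2 + dist x.2 y.2 ^ 2)) ∧
    ¬ ∃ e : A ≃ B, ∀ x y : A, dist (e x) (e y) = dist x y := by
  obtain ⟨σ⟩ : Nonempty (C ≃ ℕ) := nonempty_equiv_of_countable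
  obtain ⟨σ'⟩ : Nonempty ((C ⊕ ℕ) ≃ ℕ) := nonempty_equiv_of_countable
  have hw1 : wC = fun c => ((1 / 2 : ℝ) ^ c.2.2) ^ 2 := by
    funext c
    unfold wC
    rw [← pow_mul, mul_comm, pow_mul]
    norm_num
  have hw2 : wY = fun y => ((1 / 2 : ℝ) ^ sc y) ^ 2 := by
    funext y
    rw [wY_eq, ← pow_mul, mul_comm, pow_mul]
    norm_num
  obtain ⟨A, eA, hA⟩ := realise σ (fun c : C => (1 / 2 : ℝ) ^ c.2.2) (fun c => by positivity) ZZ
    (fun S hS => by rw [← hw1]; exact hS.1)
  obtain ⟨B, eB, hB⟩ := realise σ' (fun y => (1 / 2 : ℝ) ^ sc y) (fun y => by positivity) YY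
    (fun S hS => by rw [← hw2]; exact fin_YY hS)
  rw [← hw1] at hA
  rw [← hw2] at hB
  refine ⟨A, B, ⟨((eA.prodCongr eA).symm.trans sq).trans (eB.prodCongr eB), fun x y => ?_⟩, ?_⟩
  · congr 1
    obtain ⟨x, rfl⟩ := (eA.prodCongr eA).surjective x
    obtain ⟨y, rfl⟩ := (eA.prodCongr eA).surjective y
    simp only [Equiv.trans_apply, Equiv.symm_apply_apply]
    change dist (eB (sq x).1) (eB (sq y).1) ^ 2 + dist (eB (sq x).2) (eB (sq y).2) ^ 2 =
      dist (eA x.1) (eA y.1) ^ 2 + dist (eA x.2) (eA y.2) ^ 2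
    rw [hA, hA, hB, hB]
    exact sq_W x y
  · rintro ⟨e, he⟩
    refine no_isometry ((eA.trans e).trans eB.symm) fun S T => ?_
    rw [← hB, ← hA]
    simp only [Equiv.trans_apply, Equiv.apply_symm_apply]
    rw [he]

end Pool.Agent.H633.IsometricSquares
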